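import Mathlib
import Pool.Agent.H59.DS1

set_option autoImplicit false

namespace Pool.Agent.Results.MP_35c1fe_nt.LogGap

open Filter

/-- perfect difference set: positive integers, every `n ≥ 1` is `a - b` for exactly one pair -/
def IsPDS (A : Set ℕ) : Prop :=
  (∀ x ∈ A, 1 ≤ x) ∧
    ∀ n : ℕ, 1 ≤ n → ∃! p : ℕ × ℕ, p.1 ∈ A ∧ p.2 ∈ A ∧ (p.1 : ℤ) - (p.2 : ℤ) = (n : ℤ)

/-- `a_n`: the larger element of the (unique) pair with difference `n` -/
noncomputable def top (A : Set ℕ) (n : ℕ) : ℕ :=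
  sInf {a : ℕ | a ∈ A ∧ ∃ b ∈ A, (a : ℤ) - (b : ℤ) = (n : ℤ)}

/-- the class `𝒢` of the problem -/
def InG (G : ℕ → ℝ) : Prop :=
  Monotone G ∧ ∀ A : Set ℕ, IsPDS A →
    ∃ c : ℝ, 0 < c ∧ ∃ᶠ n : ℕ in atTop, c * (n : ℝ) * G n ≤ (top A n : ℝ)

lemma top_eq {A : Set ℕ} (hA : IsPDS A) {b d : ℕ} (hd : 1 ≤ d) (hb : b ∈ A) (hc : b + d ∈ A) :
    top A d = b + d := by
  obtain ⟨p, _, hu⟩ := hA.2 d hd
  have : {a : ℕ | a ∈ A ∧ ∃ b ∈ A, (a : ℤ) - (b : ℤ) = (d : ℤ)} = {b + d} := by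
    ext a
    simp only [Set.mem_ofPred_eq, Set.mem_singleton_iff]
    constructor
    · rintro ⟨ha, b', hb', he⟩
      have h1 := hu (a, b') ⟨ha, hb', he⟩
      have h2 := hu (b + d, b) ⟨hc, hb, by push_cast; ring⟩
      have h3 : ((a, b') : ℕ × ℕ) = (b + d, b) := h1.trans h2.symm
      exact (Prod.mk.inj h3).1
    · rintro rfl
      exact ⟨hc, b, hb, by push_cast; ring⟩
  rw [top, this, csInf_singleton]

lemma main (A : Set ℕ) (hA : IsPDS A) :
    ∃ᶠ n : ℕ in atTop, (n : ℝ) ^ 2 / (40 * Real.log n) ≤ (top A n : ℝ) := by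
  by_contra hcon
  rw [not_frequently, eventually_atTop] at hcon
  obtain ⟨d1, hd1⟩ := hcon
  set d0 := max d1 2 with hd0
  set M := (Finset.range d0).sup (top A) with hM
  have hMle : ∀ d, d < d0 → top A d ≤ M := fun d hd =>
    Finset.le_sup (f := top A) (Finset.mem_range.2 hd)
  have hlog : ∀ d : ℕ, d0 ≤ d → (0.69 : ℝ) ≤ Real.log d := by
    intro d hd
    have h2 : (2 : ℝ) ≤ d := by exact_mod_cast le_trans (le_max_right _ _) hd
    have := Real.log_le_log (by norm_num) h2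
    have := Real.log_two_gt_d9
    linarith
  have hbig : ∀ d : ℕ, d0 ≤ d → (top A d : ℝ) * (40 * Real.log d) < (d : ℝ) ^ 2 := by
    intro d hd
    have h1 := hd1 d (le_trans (le_max_left _ _) hd)
    have h2 := hlog d hd
    rw [not_le, lt_div_iff₀ (by linarith)] at h1
    exact h1
  have hsq : ∀ d : ℕ, d0 ≤ d → top A d < d ^ 2 := by
    intro d hd
    have h1 := hbig d hd
    have h2 := hlog d hd
    have h3 : (0 : ℝ) ≤ top A d := Nat.cast_nonneg _
    have : (top A d : ℝ) < (d : ℝ) ^ 2 := by nlinarith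
    exact_mod_cast this
  set m := M + 7 with hm
  have hm7 : 7 ≤ m := by omega
  set t := m * m with ht
  have hmt : 7 * m ≤ t := Nat.mul_le_mul_right _ hm7
  have ht2 : t < 2 ^ t := Nat.lt_two_pow_self
  have h24 : 4 ^ t = (2 ^ t) ^ 2 := by
    rw [show (4 : ℕ) = 2 ^ 2 by norm_num, ← pow_mul, ← pow_mul, mul_comm 2 t]
  have h24' : 2 ^ t ≤ 4 ^ t := Nat.pow_le_pow_left (by norm_num) _
  have hMt : M < 4 ^ t := by omega
  apply Pool.Agent.H59.DS.core (A := A) (t := t) (s := 5 * m)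
  · intro b hb c hc hbc h4
    obtain ⟨d, rfl⟩ : ∃ d, c = b + d := ⟨c - b, by omega⟩
    have hd : 1 ≤ d := by omega
    have he := top_eq hA hd hb hc
    have hdd : d0 ≤ d := by
      by_contra hlt
      have := hMle d (by omega)
      omega
    have h1 := hbig d hdd
    have h2 := hsq d hdd
    rw [he] at h1 h2
    have h3 : 2 ^ t ≤ d := by
      have : (2 ^ t) ^ 2 ≤ d ^ 2 := by omega
      exact (Nat.pow_le_pow_iff_left (by norm_num)).1 this
    have h5 : (t : ℝ) * Real.log 2 ≤ Real.log d := by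
      rw [← Real.log_pow]
      apply Real.log_le_log (by positivity)
      exact_mod_cast h3
    have h6 := Real.log_two_gt_d9
    have h7 : (0 : ℝ) ≤ t := Nat.cast_nonneg _
    have h8 : (25 : ℝ) * t ≤ 40 * Real.log d := by nlinarith
    have h9 : (0 : ℝ) ≤ ((b + d : ℕ) : ℝ) := Nat.cast_nonneg _
    have h10 : ((b + d : ℕ) : ℝ) * (25 * t) ≤ (d : ℝ) ^ 2 :=
      le_trans (mul_le_mul_of_nonneg_left h8 h9) h1.le
    have h11 : (b + d) * (25 * t) ≤ d ^ 2 := by exact_mod_cast h10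
    have e : (5 * m) ^ 2 = 25 * t := by rw [ht]; ring
    rw [e, Nat.add_sub_cancel_left]
    exact h11
  · omega
  · omega
  · have e : (5 * m) ^ 2 = 25 * t := by rw [ht]; ring
    omega
  · intro d hd hdN
    obtain ⟨⟨a, b⟩, ⟨ha, hb, he⟩, _⟩ := hA.2 d hd
    simp only at ha hb he
    have e : a = b + d := by omega
    subst e
    refine ⟨b, hb, ha, ?_⟩
    have he := top_eq hA hd hb ha
    have hmono : 4 ^ t ≤ 4 ^ (4 * t + 5) := Nat.pow_le_pow_right (by norm_num) (by omega)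
    by_cases hdd : d0 ≤ d
    · have h1 := hsq d hdd
      have h2 : d ^ 2 ≤ (4 ^ (2 * t + 2)) ^ 2 := Nat.pow_le_pow_left hdN _
      have h3 : (4 ^ (2 * t + 2)) ^ 2 ≤ 4 ^ (4 * t + 5) := by
        rw [← pow_mul]; exact Nat.pow_le_pow_right (by norm_num) (by omega)
      omega
    · have := hMle d (by omega)
      omega

lemma inG (G : ℕ → ℝ) (hG : Monotone G)
    (hC : ∃ C : ℝ, ∀ᶠ n : ℕ in atTop, G n ≤ C * ((n : ℝ) / Real.log n)) : InG G := by
  obtain ⟨C, hC⟩ := hC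
  refine ⟨hG, fun A hA => ⟨1 / (40 * (|C| + 1)), by positivity, ?_⟩⟩
  refine ((main A hA).and_eventually (hC.and (eventually_ge_atTop 2))).mono ?_
  rintro n ⟨h1, h2, h3⟩
  have hn : (2 : ℝ) ≤ n := by exact_mod_cast h3
  have hl : 0 < Real.log n := Real.log_pos (by linarith)
  have hq : 0 ≤ (n : ℝ) / Real.log n := by positivity
  have h4 : G n ≤ (|C| + 1) * ((n : ℝ) / Real.log n) :=
    le_trans h2 (mul_le_mul_of_nonneg_right (by have := le_abs_self C; linarith) hq)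
  refine le_trans ?_ h1
  calc 1 / (40 * (|C| + 1)) * (n : ℝ) * G n
      ≤ 1 / (40 * (|C| + 1)) * (n : ℝ) * ((|C| + 1) * ((n : ℝ) / Real.log n)) :=
        mul_le_mul_of_nonneg_left h4 (by positivity)
    _ = (n : ℝ) ^ 2 / (40 * Real.log n) := by field_simp

lemma mono_ex : Monotone (fun n : ℕ => (n : ℝ) / Real.log ((n : ℝ) + 3)) := by
  apply monotone_nat_of_le_succ
  intro n
  have hn : (0 : ℝ) ≤ n := Nat.cast_nonneg _
  have h1 : 1 ≤ Real.log ((n : ℝ) + 3) := by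
    rw [Real.le_log_iff_exp_le (by linarith)]
    have := Real.exp_one_lt_d9
    linarith
  have h2 : Real.log ((n : ℝ) + 1 + 3) ≤ Real.log ((n : ℝ) + 3) + 1 / ((n : ℝ) + 3) := by
    have h3 := Real.log_le_sub_one_of_pos (x := ((n : ℝ) + 1 + 3) / ((n : ℝ) + 3)) (by positivity)
    rw [Real.log_div (by positivity) (by positivity)] at h3
    have : ((n : ℝ) + 1 + 3) / ((n : ℝ) + 3) - 1 = 1 / ((n : ℝ) + 3) := by field_simp; ring
    linarith
  have h4 : 0 < Real.log ((n : ℝ) + 1 + 3) := Real.log_pos (by linarith)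
  have h5 : (n : ℝ) * (1 / ((n : ℝ) + 3)) ≤ 1 := by
    rw [mul_one_div, div_le_one (by linarith)]; linarith
  push_cast
  rw [div_le_div_iff₀ (by linarith) h4]
  have h6 := mul_le_mul_of_nonneg_left h2 hn
  nlinarith

theorem result :
    (∀ A : Set ℕ, IsPDS A →
      ∃ᶠ n : ℕ in atTop, (n : ℝ) ^ 2 / (40 * Real.log n) ≤ (top A n : ℝ)) ∧
    (∀ G : ℕ → ℝ, Monotone G →
      (∃ C : ℝ, ∀ᶠ n : ℕ in atTop, G n ≤ C * ((n : ℝ) / Real.log n)) → InG G) ∧
    InG (fun n : ℕ => (n : ℝ) / Real.log ((n : ℝ) + 3)) := by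
  refine ⟨main, inG, inG _ mono_ex ⟨1, ?_⟩⟩
  filter_upwards [eventually_ge_atTop 2] with n hn
  have hn' : (2 : ℝ) ≤ n := by exact_mod_cast hn
  have hl : 0 < Real.log n := Real.log_pos (by linarith)
  rw [one_mul]
  exact div_le_div_of_nonneg_left (by linarith) hl (Real.log_le_log (by linarith) (by linarith))

end Pool.Agent.Results.MP_35c1fe_nt.LogGap
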